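import Pool.Agent.H801.Pt.Walk

/-!
# Temporal caterpillars

The spine `0, …, K - 1` is a path whose edges are always present; the leaf `K + i` is attached to
the spine vertex `i` by an edge that is present at the times `r` with `P i r`.
-/

set_option autoImplicit false

namespace Pool.Agent.L0h82.Pt

open Pool.Agent.H801.Pt

/-- the caterpillar -/
def cat (K p : ℕ) (P : ℕ → ℕ → Bool) : Tr :=
  (List.range (K - 1)).map (fun i => (i, List.replicate p true)) ++
    (List.range K).map (fun i => (i, (List.range p).map (P i)))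

variable {K p : ℕ} {P : ℕ → ℕ → Bool}

theorem cat_length : (cat K p P).length = (K - 1) + K := by
  simp [cat]

theorem getD_spine {i : ℕ} (hi : i < K - 1) :
    (cat K p P).getD i (0, []) = (i, List.replicate p true) := by
  unfold cat
  rw [List.getD_append _ _ _ _ (by simpa using hi)]
  simp [hi]

theorem getD_leaf {i : ℕ} (hi : i < K) :
    (cat K p P).getD (K - 1 + i) (0, []) = (i, (List.range p).map (P i)) := by
  unfold cat
  rw [List.getD_append_right _ _ _ _ (by simp)]
  simp [hi]

theorem par_spine {i : ℕ} (h1 : 1 ≤ i) (hi : i < K) : par (cat K p P) i = i - 1 := by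
  unfold par
  rw [getD_spine (by omega)]

theorem pre_spine {i r : ℕ} (h1 : 1 ≤ i) (hi : i < K) (hr : r < p) :
    pre (cat K p P) i r = true := by
  unfold pre pat
  rw [getD_spine (by omega)]
  simp [hr]

theorem par_leaf {i : ℕ} (hi : i < K) : par (cat K p P) (K + i) = i := by
  unfold par
  have : K + i - 1 = K - 1 + i := by omega
  rw [this, getD_leaf hi]

theorem pre_leaf {i r : ℕ} (hi : i < K) (hr : r < p) :
    pre (cat K p P) (K + i) r = P i r := by
  unfold pre pat
  have : K + i - 1 = K - 1 + i := by omega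
  rw [this, getD_leaf hi]
  simp [hr]

theorem pat_length {i : ℕ} (h1 : 1 ≤ i) (hi : i ≤ (cat K p P).length) :
    (pat (cat K p P) i).length = p := by
  rw [cat_length] at hi
  unfold pat
  by_cases h : i < K
  · rw [getD_spine (by omega)]
    simp
  · obtain ⟨k, rfl⟩ := Nat.exists_eq_add_of_le (not_lt.1 h)
    have : K + k - 1 = K - 1 + k := by omega
    rw [this, getD_leaf (by omega)]
    simp

theorem cat_legal (hp : 0 < p) (h : ∀ i < K, ∃ r < p, P i r = true) : Legal p (cat K p P) := by
  intro i h1 hi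
  refine ⟨?_, pat_length h1 hi, ?_⟩
  · rw [cat_length] at hi
    by_cases hK : i < K
    · rw [par_spine h1 hK]
      omega
    · obtain ⟨k, rfl⟩ := Nat.exists_eq_add_of_le (not_lt.1 hK)
      rw [par_leaf (by omega)]
      omega
  · rw [cat_length] at hi
    by_cases hK : i < K
    · exact ⟨0, hp, pre_spine h1 hK hp⟩
    · obtain ⟨k, rfl⟩ := Nat.exists_eq_add_of_le (not_lt.1 hK)
      obtain ⟨r, hr, hr'⟩ := h k (by omega)
      exact ⟨r, hr, by rw [pre_leaf (by omega) hr]; exact hr'⟩

/-- the steps of the agent -/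
theorem stp_iff {τ x y : ℕ} (hτ : τ < p) : Stp p (cat K p P) τ x y ↔
    x = y ∨ (y = x + 1 ∧ y < K) ∨ (x = y + 1 ∧ x < K) ∨
      ∃ i < K, P i τ = true ∧ ((x = i ∧ y = K + i) ∨ (x = K + i ∧ y = i)) := by
  have hmod : τ % p = τ := Nat.mod_eq_of_lt hτ
  unfold Stp
  rw [hmod, cat_length]
  constructor
  · rintro (h | ⟨i, h1, h2, h3, h4⟩)
    · exact Or.inl h
    · right
      by_cases hK : i < K
      · rw [par_spine h1 hK] at h4
        rcases h4 with ⟨rfl, rfl⟩ | ⟨rfl, rfl⟩
        · right; left; omega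
        · left; omega
      · obtain ⟨k, rfl⟩ := Nat.exists_eq_add_of_le (not_lt.1 hK)
        rw [par_leaf (by omega)] at h4
        rw [pre_leaf (by omega) hτ] at h3
        right; right
        refine ⟨k, by omega, h3, ?_⟩
        rcases h4 with ⟨rfl, rfl⟩ | ⟨rfl, rfl⟩
        · exact Or.inr ⟨rfl, rfl⟩
        · exact Or.inl ⟨rfl, rfl⟩
  · rintro (h | ⟨rfl, h⟩ | ⟨rfl, h⟩ | ⟨i, hi, hP, h⟩)
    · exact Or.inl h
    · refine Or.inr ⟨x + 1, by omega, by omega, pre_spine (by omega) h hτ, ?_⟩
      rw [par_spine (by omega) h]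
      exact Or.inr ⟨rfl, rfl⟩
    · refine Or.inr ⟨y + 1, by omega, by omega, pre_spine (by omega) h hτ, ?_⟩
      rw [par_spine (by omega) h]
      exact Or.inl ⟨rfl, rfl⟩
    · refine Or.inr ⟨K + i, by omega, by omega, by rw [pre_leaf hi hτ]; exact hP, ?_⟩
      rw [par_leaf hi]
      rcases h with ⟨rfl, rfl⟩ | ⟨rfl, rfl⟩
      · exact Or.inr ⟨rfl, rfl⟩
      · exact Or.inl ⟨rfl, rfl⟩

/-- the number of edges at the vertex `v` -/
def deg (T : Tr) (v : ℕ) : ℕ :=
  ((Finset.Icc 1 T.length).filter (fun i => i = v ∨ par T i = v)).card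

theorem cat_deg (v : ℕ) : deg (cat K p P) v ≤ 3 := by
  unfold deg
  have h : (Finset.Icc 1 (cat K p P).length).filter
      (fun i => i = v ∨ par (cat K p P) i = v) ⊆ {v, v + 1, K + v} := by
    intro i hi
    rw [Finset.mem_filter, Finset.mem_Icc, cat_length] at hi
    obtain ⟨⟨h1, h2⟩, h3⟩ := hi
    simp only [Finset.mem_insert, Finset.mem_singleton]
    rcases h3 with h3 | h3
    · exact Or.inl h3
    · by_cases hK : i < K
      · rw [par_spine h1 hK] at h3
        omega
      · obtain ⟨k, rfl⟩ := Nat.exists_eq_add_of_le (not_lt.1 hK)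
        rw [par_leaf (by omega)] at h3
        omega
  exact (Finset.card_le_card h).trans Finset.card_le_three

/-! ### Walks -/

/-- the trivial restriction -/
def Al : ℕ → Prop := fun _ => True

theorem wk_step {a x y : ℕ} (h : Stp p (cat K p P) a x y) :
    Wk p (cat K p P) Al x a y 1 {x, y} := by
  have h1 : Wk p (cat K p P) Al x a x 0 {x} := Wk.nil trivial
  have h2 := Wk.snoc h1 (z := y) (by simpa using h) trivial
  have e : (insert y {x} : Finset ℕ) = {x, y} := by
    ext u; simp only [Finset.mem_insert, Finset.mem_singleton]; tauto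
  rw [e] at h2
  simpa using h2

theorem wk_append {a x y d z e : ℕ} {C C' : Finset ℕ}
    (h : Wk p (cat K p P) Al x a y d C) (h' : Wk p (cat K p P) Al y (a + d) z e C') :
    Wk p (cat K p P) Al x a z (d + e) (C ∪ C') := h.append h' rfl

theorem wk_up {a x : ℕ} : ∀ {d : ℕ}, x + d < K → a + d ≤ p →
    ∃ C, Wk p (cat K p P) Al x a (x + d) d C ∧ ∀ i ≤ d, x + i ∈ C := by
  intro d
  induction d with
  | zero =>
    intro _ _
    refine ⟨{x}, Wk.nil trivial, ?_⟩
    intro i hi
    have : i = 0 := by omega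
    subst this
    simp
  | succ d ih =>
    intro h1 h2
    obtain ⟨C, hC, hC'⟩ := ih (by omega) (by omega)
    refine ⟨insert (x + (d + 1)) C, Wk.snoc hC ?_ trivial, ?_⟩
    · rw [stp_iff (by omega)]
      right; left
      omega
    · intro i hi
      rcases Nat.lt_or_ge d i with h | h
      · have : i = d + 1 := by omega
        subst this
        exact Finset.mem_insert_self _ _
      · exact Finset.mem_insert_of_mem (hC' i h)

theorem wk_down {a x : ℕ} : ∀ {d : ℕ}, d ≤ x → x < K → a + d ≤ p →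
    ∃ C, Wk p (cat K p P) Al x a (x - d) d C := by
  intro d
  induction d with
  | zero =>
    intro _ _ _
    exact ⟨{x}, Wk.nil trivial⟩
  | succ d ih =>
    intro h1 h2 h3
    obtain ⟨C, hC⟩ := ih (by omega) h2 (by omega)
    refine ⟨insert (x - (d + 1)) C, Wk.snoc hC ?_ trivial⟩
    rw [stp_iff (by omega)]
    right; right; left
    omega

theorem wk_wait {a x d : ℕ} : Wk p (cat K p P) Al x a x d {x} := Wk.wait trivial a d

/-- moving along the spine -/
theorem wk_spine {a x y d : ℕ} (hx : x < K) (hy : y < K) (hd : K ≤ d) (hp : a + d ≤ p) :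
    ∃ C, Wk p (cat K p P) Al x a y d C := by
  rcases le_total x y with h | h
  · obtain ⟨C, hC, _⟩ := wk_up (P := P) (a := a) (x := x) (d := y - x) (K := K) (p := p)
      (by omega) (by omega)
    have e1 : x + (y - x) = y := by omega
    rw [e1] at hC
    have h2 := wk_append hC (wk_wait (d := d - (y - x)))
    have e2 : y - x + (d - (y - x)) = d := by omega
    rw [e2] at h2
    exact ⟨_, h2⟩
  · obtain ⟨C, hC⟩ := wk_down (P := P) (a := a) (x := x) (d := x - y) (K := K) (p := p)
      (by omega) hx (by omega)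
    have e1 : x - (x - y) = y := by omega
    rw [e1] at hC
    have h2 := wk_append hC (wk_wait (d := d - (x - y)))
    have e2 : x - y + (d - (x - y)) = d := by omega
    rw [e2] at h2
    exact ⟨_, h2⟩

/-- a walk gives a movement -/
theorem covers_of_wk {y t : ℕ} {C : Finset ℕ} (h : Wk p (cat K p P) Al 0 0 y t C)
    (hC : ∀ v ≤ (cat K p P).length, v ∈ C) : Covers p (cat K p P) t := by
  have key : ∀ {y t : ℕ} {C : Finset ℕ}, Wk p (cat K p P) Al 0 0 y t C →
      ∃ pos : ℕ → ℕ, pos 0 = 0 ∧ (∀ τ < t, Stp p (cat K p P) τ (pos τ) (pos (τ + 1))) ∧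
        pos t = y ∧ ∀ v ∈ C, ∃ τ ≤ t, pos τ = v := by
    intro y t C h
    induction h with
    | nil _ =>
      refine ⟨fun _ => 0, rfl, by intro τ hτ; omega, rfl, ?_⟩
      intro v hv
      rw [Finset.mem_singleton] at hv
      exact ⟨0, le_rfl, hv.symm⟩
    | @snoc y d C z h1 h2 h3 ih =>
      obtain ⟨pos, g1, g2, g3, g4⟩ := ih
      refine ⟨fun τ => if τ ≤ d then pos τ else z, by simpa using g1, ?_, ?_, ?_⟩
      · intro τ hτ
        rcases Nat.lt_or_ge τ d with h | h
        · simp only [if_pos h.le, if_pos (show τ + 1 ≤ d by omega)]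
          exact g2 τ h
        · have e : τ = d := by omega
          subst e
          simp only [le_refl, if_true, if_neg (show ¬ τ + 1 ≤ τ by omega), g3]
          simpa using h2
      · simp
      · intro v hv
        rcases Finset.mem_insert.1 hv with rfl | hv
        · exact ⟨d + 1, le_rfl, by simp⟩
        · obtain ⟨τ, h1, h2⟩ := g4 v hv
          exact ⟨τ, by omega, by simp only [if_pos h1]; exact h2⟩
  obtain ⟨pos, g1, g2, _, g4⟩ := key h
  exact ⟨pos, g1, g2, fun v hv => g4 v (hC v hv)⟩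

/-! ### Entering and leaving a leaf -/

theorem enter {pos : ℕ → ℕ} {t : ℕ} (ht : t ≤ p) (h0 : pos 0 = 0)
    (hs : ∀ τ < t, Stp p (cat K p P) τ (pos τ) (pos (τ + 1))) {i : ℕ} (hi : i < K) :
    ∀ {τ₀ : ℕ}, τ₀ ≤ t → pos τ₀ = K + i →
      ∃ α < τ₀, pos α = i ∧ P i α = true ∧ ∀ τ, α < τ → τ ≤ τ₀ → pos τ = K + i := by
  intro τ₀
  induction τ₀ with
  | zero =>
    intro _ h
    omega
  | succ τ ih =>
    intro h1 h2
    have h3 := hs τ (by omega)
    rw [stp_iff (by omega), h2] at h3
    rcases h3 with h3 | ⟨h3, h4⟩ | ⟨h3, h4⟩ | ⟨k, hk, hP, h4⟩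
    · obtain ⟨α, g1, g2, g3, g4⟩ := ih (by omega) h3
      refine ⟨α, by omega, g2, g3, fun u hu hu' => ?_⟩
      rcases Nat.lt_or_ge τ u with h | h
      · have : u = τ + 1 := by omega
        rw [this]; exact h2
      · exact g4 u hu h
    · omega
    · omega
    · rcases h4 with ⟨h4, h5⟩ | ⟨h4, h5⟩
      · have : k = i := by omega
        subst this
        refine ⟨τ, by omega, h4, hP, fun u hu hu' => ?_⟩
        have : u = τ + 1 := by omega
        rw [this]; exact h2
      · omega

theorem leave {pos : ℕ → ℕ} {t : ℕ} (ht : t ≤ p)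
    (hs : ∀ τ < t, Stp p (cat K p P) τ (pos τ) (pos (τ + 1))) {i : ℕ} (hi : i < K)
    (hend : pos t ≠ K + i) :
    ∀ (n : ℕ) {τ₀ : ℕ}, τ₀ + n = t → pos τ₀ = K + i →
      ∃ β, τ₀ ≤ β ∧ β < t ∧ P i β = true ∧ ∀ τ, τ₀ ≤ τ → τ ≤ β → pos τ = K + i := by
  intro n
  induction n with
  | zero =>
    intro τ₀ h1 h2
    rw [add_zero] at h1
    subst h1
    exact absurd h2 hend
  | succ n ih =>
    intro τ₀ h1 h2
    have h3 := hs τ₀ (by omega)
    rw [stp_iff (by omega), h2] at h3
    rcases h3 with h3 | ⟨h3, h4⟩ | ⟨h3, h4⟩ | ⟨k, hk, hP, h4⟩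
    · obtain ⟨β, g1, g2, g3, g4⟩ := ih (τ₀ := τ₀ + 1) (by omega) h3.symm
      refine ⟨β, by omega, g2, g3, fun u hu hu' => ?_⟩
      rcases Nat.lt_or_ge τ₀ u with h | h
      · exact g4 u h hu'
      · have : u = τ₀ := by omega
        rw [this]; exact h2
    · omega
    · omega
    · rcases h4 with ⟨h4, h5⟩ | ⟨h4, h5⟩
      · omega
      · have : k = i := by omega
        subst this
        refine ⟨τ₀, le_rfl, by omega, hP, fun u hu hu' => ?_⟩
        have : u = τ₀ := by omega
        rw [this]; exact h2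

end Pool.Agent.L0h82.Pt
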