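import Pool.Agent.L0h82.Pt.Red
import Pool.Agent.R542.Star.Form
import Pool.Agent.H673R2.HardOn
import Pool.Agent.H801.Ecc.Main
import Pool.Agent.H801.Pt.Correct

/-!
# Hardness of foremost coverage of periodic trees of bounded degree
-/

set_option autoImplicit false

namespace Pool.Agent.L0h82.Pt

open Pool.Agent.NPC Pool.Agent.H673R2 Pool.Agent.H801.Pt
open Pool.Agent.NPC.R542 (F3)
open Pool.Agent.NPC.R542.Star (SatB cl satB_iff poly_cl upoly_len upoly_3len)

/-- the instance -/
def ins (φ : F3) : ℕ × Tr × ℕ :=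
  (ff (3 * φ.length) φ.length + 2, tree (3 * φ.length) φ.length (cl φ),
    ff (3 * φ.length) φ.length + 1)

theorem sat_iff (φ : F3) : SAT3 φ ↔ Covers (ins φ).1 (ins φ).2.1 (ins φ).2.2 :=
  (satB_iff φ).trans ⟨fwd, bwd⟩

section
variable {α : Type} [TEnc α]

theorem upoly_kk {φ : α → F3} (hφ : Poly φ) :
    UPoly (fun a => kk (3 * (φ a).length) (φ a).length) :=
  UPoly.add (UPoly.add (upoly_3len hφ) (upoly_len hφ)) (UPoly.const 1)

theorem upoly_zz {φ : α → F3} (hφ : Poly φ) : UPoly (fun a => zz (φ a).length) :=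
  UPoly.add (UPoly.mul (UPoly.const 2) (upoly_len hφ)) (UPoly.const 3)

theorem upoly_dd {φ : α → F3} (hφ : Poly φ) :
    UPoly (fun a => dd (3 * (φ a).length) (φ a).length) :=
  UPoly.add (UPoly.mul (UPoly.const 2) (upoly_kk hφ)) (UPoly.const 3)

theorem poly_tm {φ : α → F3} {g : α → ℕ} (hφ : Poly φ) (hg : Poly g) :
    Poly (fun a => tm (3 * (φ a).length) (φ a).length (g a)) :=
  Poly.mul (upoly_dd hφ).toPoly (Poly.add hg (NPC.Poly.const 1))

theorem upoly_ff {φ : α → F3} (hφ : Poly φ) :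
    UPoly (fun a => ff (3 * (φ a).length) (φ a).length) :=
  UPoly.mul (upoly_dd hφ) (UPoly.add (UPoly.mul (upoly_zz hφ) (upoly_3len hφ)) (UPoly.const 1))

theorem poly_prq {φ : α → F3} {i τ : α → ℕ} (hφ : Poly φ) (hi : Poly i) (hτ : Poly τ) :
    Poly (fun a => prq (3 * (φ a).length) (φ a).length (cl (φ a)) (i a) (τ a)) := by
  have hN : Poly (fun a => 3 * (φ a).length) := (upoly_3len hφ).toPoly
  have hm : Poly (fun a => (φ a).length) := (upoly_len hφ).toPoly
  have hz : Poly (fun a => zz (φ a).length) := (upoly_zz hφ).toPoly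
  have hzi : Poly (fun a => zz (φ a).length * i a) := Poly.mul hz hi
  have hm1 : Poly (fun a => (φ a).length + 1) := Poly.add hm (NPC.Poly.const 1)
  have hm2 : Poly (fun a => 2 * (φ a).length + 2) :=
    Poly.add (Poly.mul (NPC.Poly.const 2) hm) (NPC.Poly.const 2)
  refine Poly.ite (p := fun a => i a < 3 * (φ a).length) (Poly.decide_lt hi hN) ?_ ?_
  · exact Poly.or (Poly.decide_eq hτ (poly_tm hφ hzi))
      (Poly.or (Poly.decide_eq hτ (poly_tm hφ (Poly.add hzi hm1)))
        (Poly.decide_eq hτ (poly_tm hφ (Poly.add hzi hm2))))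
  · refine Poly.ite (p := fun a => i a = 3 * (φ a).length) (Poly.decide_eq hi hN)
      (Poly.decide_eq hτ (upoly_ff hφ).toPoly) ?_
    refine Poly.any (l := fun a => List.range (3 * (φ a).length))
      (p := fun a j =>
        (cl (φ a) (i a - 3 * (φ a).length - 1) j true &&
          (decide (τ a = tm (3 * (φ a).length) (φ a).length
            (zz (φ a).length * j + (i a - 3 * (φ a).length))) ||
          decide (τ a = tm (3 * (φ a).length) (φ a).length
            (zz (φ a).length * j + (i a - 3 * (φ a).length)) + 1))) ||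
        (cl (φ a) (i a - 3 * (φ a).length - 1) j false &&
          (decide (τ a = tm (3 * (φ a).length) (φ a).length
            (zz (φ a).length * j + ((φ a).length + 1 + (i a - 3 * (φ a).length)))) ||
          decide (τ a = tm (3 * (φ a).length) (φ a).length
            (zz (φ a).length * j + ((φ a).length + 1 + (i a - 3 * (φ a).length))) + 1))))
      (UPoly.range (upoly_3len hφ)) ?_
    have hφ' : Poly (fun p : α × ℕ => φ p.1) := hφ.comp (Poly.fst Poly.id)
    have hj : Poly (fun p : α × ℕ => p.2) := Poly.snd Poly.id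
    have hd : Poly (fun a => i a - 3 * (φ a).length) := Poly.sub hi hN
    have hd' : Poly (fun p : α × ℕ => i p.1 - 3 * (φ p.1).length) := hd.comp (Poly.fst Poly.id)
    have hc : Poly (fun p : α × ℕ => i p.1 - 3 * (φ p.1).length - 1) :=
      Poly.sub hd' (NPC.Poly.const 1)
    have hτ' : Poly (fun p : α × ℕ => τ p.1) := hτ.comp (Poly.fst Poly.id)
    have hzj : Poly (fun p : α × ℕ => zz (φ p.1).length * p.2) :=
      Poly.mul (hz.comp (Poly.fst Poly.id)) hj
    have hm1' : Poly (fun p : α × ℕ => (φ p.1).length + 1) := hm1.comp (Poly.fst Poly.id)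
    have t1 := poly_tm hφ' (Poly.add hzj hd')
    have t2 := poly_tm hφ' (Poly.add hzj (Poly.add hm1' hd'))
    exact Poly.or
      (Poly.and (poly_cl true hφ' hc hj) (Poly.or (Poly.decide_eq hτ' t1)
        (Poly.decide_eq hτ' (Poly.add t1 (NPC.Poly.const 1)))))
      (Poly.and (poly_cl false hφ' hc hj) (Poly.or (Poly.decide_eq hτ' t2)
        (Poly.decide_eq hτ' (Poly.add t2 (NPC.Poly.const 1)))))

theorem poly_prs {φ : α → F3} {i τ : α → ℕ} (hφ : Poly φ) (hi : Poly i) (hτ : Poly τ) :
    Poly (fun a => prs (3 * (φ a).length) (φ a).length (cl (φ a)) (i a) (τ a)) :=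
  Poly.or (Poly.decide_eq hτ (Poly.add (upoly_ff hφ).toPoly (NPC.Poly.const 1)))
    (poly_prq hφ hi hτ)

end

theorem poly_tree : Poly (fun φ : F3 => tree (3 * φ.length) φ.length (cl φ)) := by
  have hid : Poly (fun φ : F3 => φ) := Poly.id
  have hK := upoly_kk hid
  have hp : UPoly (fun φ : F3 => ff (3 * φ.length) φ.length + 2) :=
    UPoly.add (upoly_ff hid) (UPoly.const 2)
  have hrep : Poly (fun φ : F3 => List.replicate (ff (3 * φ.length) φ.length + 2) true) := by
    refine (NPC.Poly.map (F := fun (_ : F3) (_ : ℕ) => true) hp.range (NPC.Poly.const true)).congr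
      fun φ => ?_
    simp
  refine Poly.append ?_ ?_
  · refine NPC.Poly.map (F := fun (φ : F3) (i : ℕ) =>
      (i, List.replicate (ff (3 * φ.length) φ.length + 2) true)) ?_ ?_
    · refine UPoly.range (UPoly.of_le (Poly.sub hK.toPoly (NPC.Poly.const 1)) hK ?_)
      intro a
      exact Nat.sub_le _ _
    · exact Poly.pair (Poly.snd Poly.id) (hrep.comp (Poly.fst Poly.id))
  · refine NPC.Poly.map (F := fun (φ : F3) (i : ℕ) =>
      (i, (List.range (ff (3 * φ.length) φ.length + 2)).map
        (prs (3 * φ.length) φ.length (cl φ) i))) hK.range ?_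
    refine Poly.pair (Poly.snd Poly.id) ?_
    refine NPC.Poly.map (F := fun (q : F3 × ℕ) (τ : ℕ) =>
      prs (3 * q.1.length) q.1.length (cl q.1) q.2 τ) (hp.range.comp (Poly.fst Poly.id)) ?_
    exact poly_prs (Poly.fst (Poly.fst Poly.id)) (Poly.snd (Poly.fst Poly.id))
      (Poly.snd Poly.id)

theorem poly_ins : Poly ins := by
  have hf : UPoly (fun φ : F3 => ff (3 * φ.length) φ.length) := upoly_ff Poly.id
  exact Poly.pair (Poly.add hf.toPoly (NPC.Poly.const 2))
    (Poly.pair poly_tree (Poly.add hf.toPoly (NPC.Poly.const 1)))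

/-- the instances that are produced -/
def Pro (I : ℕ × Tr × ℕ) : Prop := 1 ≤ I.1 ∧ Legal I.1 I.2.1 ∧ ∀ v, deg I.2.1 v ≤ 3

theorem ins_pro (φ : F3) : Pro (ins φ) :=
  ⟨by unfold ins; simp only; omega, tree_legal, fun _ => cat_deg _⟩

theorem hardPr_pt : HardPr Pro (fun I : ℕ × Tr × ℕ => Covers I.1 I.2.1 I.2.2) :=
  HardPr.trans hardI_SAT3.toHardPr (f := ins) poly_ins (fun φ _ => ins_pro φ)
    (fun φ _ => sat_iff φ)

theorem Covers.mono {p t t' : ℕ} {T : Tr} (h : Covers p T t) (ht : t ≤ t') : Covers p T t' := by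
  obtain ⟨pos, h1, h2, h3⟩ := h
  refine ⟨fun τ => pos (min τ t), by simpa using h1, ?_, ?_⟩
  · intro τ _
    change Stp p T τ (pos (min τ t)) (pos (min (τ + 1) t))
    rcases Nat.lt_or_ge τ t with h | h
    · rw [min_eq_left h.le, min_eq_left (by omega)]
      exact h2 τ h
    · rw [min_eq_right h, min_eq_right (by omega)]
      exact Or.inl rfl
  · intro v hv
    obtain ⟨τ, h4, h5⟩ := h3 v hv
    exact ⟨τ, by omega, by change pos (min τ t) = v; rw [min_eq_left h4]; exact h5⟩

theorem coverTime_le_iff {p t : ℕ} {T : Tr} (hT : Legal p T) :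
    Covers p T t ↔ coverTime p T ≤ t := by
  constructor
  · exact fun h => Nat.sInf_le h
  · intro h
    obtain ⟨s, _, hs⟩ := exists_covers hT
    have h2 : Covers p T (coverTime p T) := Nat.sInf_mem (s := {t | Covers p T t}) ⟨s, hs⟩
    exact Covers.mono h2 h

/-- A function that computes the cover time on the produced instances gives a decision
procedure. -/
theorem collapse {F : List Bool → List Bool} (hF : PolyTime F)
    (h : ∀ (p : ℕ) (T : Tr), 1 ≤ p → Legal p T → (∀ v, deg T v ≤ 3) →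
      F (bits (p, T)) = bits (coverTime p T)) : ∀ L, InNP L → InP L := by
  have hfst : Poly (fun I : ℕ × Tr × ℕ => (I.1, I.2.1)) :=
    Poly.pair (Poly.fst Poly.id) (Poly.fst (Poly.snd Poly.id))
  have ho : Poly (fun I : ℕ × Tr × ℕ => unbits ℕ (F (bits (I.1, I.2.1)))) :=
    poly_unbits.comp (Pool.Agent.H801.Ecc.poly_app hF hfst)
  have hd : Poly (fun I : ℕ × Tr × ℕ => match unbits ℕ (F (bits (I.1, I.2.1))) with
      | none => false
      | some s => decide (s ≤ I.2.2)) := by
    refine (Poly.optCases (o := fun I : ℕ × Tr × ℕ => unbits ℕ (F (bits (I.1, I.2.1))))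
      (g := fun _ => false) (h := fun I s => decide (s ≤ I.2.2)) ho
      (NPC.Poly.const false) (Poly.decide_le (Poly.snd Poly.id)
        (Poly.snd (Poly.snd (Poly.fst Poly.id))))).congr fun I => ?_
    cases unbits ℕ (F (bits (I.1, I.2.1))) <;> rfl
  refine hardPr_pt.collapse hd ?_
  rintro ⟨p, T, t⟩ ⟨h1, h2, h3⟩
  change Covers p T t ↔ _
  simp only
  rw [h p T h1 h2 h3, unbits_bits, coverTime_le_iff h2]
  simp

theorem npHardOn_pt : NPHardOn Pro (fun I : ℕ × Tr × ℕ => Covers I.1 I.2.1 I.2.2) :=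
  npHardOn_of hardI_SAT3.toHardPr (f := ins) poly_ins (fun φ _ => ins_pro φ)
    (fun φ _ => sat_iff φ)

end Pool.Agent.L0h82.Pt
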