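import Pool.Agent.L0h82.Pt.Cat
import Pool.Agent.R542.Star.Fwd

/-!
# The temporal caterpillar of a formula
-/

set_option autoImplicit false

namespace Pool.Agent.L0h82.Pt

open Pool.Agent.H801.Pt
open Pool.Agent.NPC.R542.Star (SatB)

/-- number of spine vertices -/
def kk (N m : ℕ) : ℕ := N + m + 1

/-- number of events per variable -/
def zz (m : ℕ) : ℕ := 2 * m + 3

/-- distance of two events -/
def dd (N m : ℕ) : ℕ := 2 * kk N m + 3

/-- the time of the event `g` -/
def tm (N m g : ℕ) : ℕ := dd N m * (g + 1)

/-- the time of the last event -/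
def ff (N m : ℕ) : ℕ := tm N m (zz m * N)

/-- presence of the edge of the leaf `i` before the last time of the period -/
def prq (N m : ℕ) (cl : ℕ → ℕ → Bool → Bool) (i τ : ℕ) : Bool :=
  if i < N then
    decide (τ = tm N m (zz m * i)) || (decide (τ = tm N m (zz m * i + (m + 1))) ||
      decide (τ = tm N m (zz m * i + (2 * m + 2))))
  else if i = N then decide (τ = ff N m)
  else (List.range N).any fun j =>
    (cl (i - N - 1) j true && (decide (τ = tm N m (zz m * j + (i - N))) ||
      decide (τ = tm N m (zz m * j + (i - N)) + 1))) ||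
    (cl (i - N - 1) j false && (decide (τ = tm N m (zz m * j + (m + 1 + (i - N)))) ||
      decide (τ = tm N m (zz m * j + (m + 1 + (i - N))) + 1)))

/-- presence of the edge of the leaf `i` -/
def prs (N m : ℕ) (cl : ℕ → ℕ → Bool → Bool) (i τ : ℕ) : Bool :=
  decide (τ = ff N m + 1) || prq N m cl i τ

/-- the tree -/
def tree (N m : ℕ) (cl : ℕ → ℕ → Bool → Bool) : Tr := cat (kk N m) (ff N m + 2) (prs N m cl)

variable {N m : ℕ} {cl : ℕ → ℕ → Bool → Bool}

theorem dd_pos : 0 < dd N m := by unfold dd; omega

theorem tm_succ (g : ℕ) : tm N m (g + 1) = tm N m g + dd N m := by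
  unfold tm; ring

theorem tm_lt {g h : ℕ} (hg : g < h) : tm N m g + dd N m ≤ tm N m h := by
  obtain ⟨k, rfl⟩ := Nat.exists_eq_add_of_lt hg
  have : tm N m (g + k + 1) = tm N m g + dd N m + dd N m * k := by
    unfold tm; ring
  omega

theorem tm_inj {g h : ℕ} (hg : tm N m g = tm N m h) : g = h := by
  have h1 := dd_pos (N := N) (m := m)
  rcases Nat.lt_trichotomy g h with hlt | rfl | hlt
  · have := tm_lt (N := N) (m := m) hlt; omega
  · rfl
  · have := tm_lt (N := N) (m := m) hlt; omega

theorem tree_legal : Legal (ff N m + 2) (tree N m cl) := by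
  refine cat_legal (by omega) ?_
  intro i _
  refine ⟨ff N m + 1, by omega, ?_⟩
  unfold prs
  simp

theorem prs_iff {i τ : ℕ} (h : τ ≤ ff N m) : prs N m cl i τ = true ↔ prq N m cl i τ = true := by
  unfold prs
  rw [Bool.or_eq_true, decide_eq_true_eq]
  constructor
  · rintro (h1 | h1)
    · omega
    · exact h1
  · exact Or.inr

theorem prq_var {i τ : ℕ} (hi : i < N) : prq N m cl i τ = true ↔
    τ = tm N m (zz m * i) ∨ τ = tm N m (zz m * i + (m + 1)) ∨
      τ = tm N m (zz m * i + (2 * m + 2)) := by
  unfold prq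
  rw [if_pos hi]
  simp

theorem prq_last {τ : ℕ} : prq N m cl N τ = true ↔ τ = ff N m := by
  unfold prq
  rw [if_neg (lt_irrefl _), if_pos rfl, decide_eq_true_eq]

theorem prq_clause {c τ : ℕ} : prq N m cl (N + 1 + c) τ = true ↔
    ∃ j < N, (cl c j true = true ∧ (τ = tm N m (zz m * j + (1 + c)) ∨
      τ = tm N m (zz m * j + (1 + c)) + 1)) ∨
      (cl c j false = true ∧ (τ = tm N m (zz m * j + (m + 2 + c)) ∨
      τ = tm N m (zz m * j + (m + 2 + c)) + 1)) := by
  unfold prq
  rw [if_neg (by omega), if_neg (by omega), List.any_eq_true]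
  have e1 : 1 + c - 1 = c := by omega
  have e2 : N + 1 + c - N = 1 + c := by omega
  have e3 : m + 1 + (1 + c) = m + 2 + c := by omega
  simp only [List.mem_range, e1, e2, e3, Bool.or_eq_true, Bool.and_eq_true, decide_eq_true_eq]

theorem idx_lt {j r : ℕ} (hj : j < N) (hr : r < zz m) : zz m * j + r < zz m * N := by
  have : zz m * (j + 1) ≤ zz m * N := Nat.mul_le_mul_left _ hj
  rw [mul_add, mul_one] at this
  omega

/-! ### From movements to assignments -/

theorem bwd (h : Covers (ff N m + 2) (tree N m cl) (ff N m + 1)) : SatB N m cl := by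
  obtain ⟨pos, h0, hs, hv⟩ := h
  set F := ff N m with hF
  set K := kk N m with hK
  have hK' : K = N + m + 1 := hK
  have hlen : (tree N m cl).length = (K - 1) + K := cat_length
  have ht : F + 1 ≤ F + 2 := by omega
  have hent : ∀ {i : ℕ}, i < K → ∀ {τ₀ : ℕ}, τ₀ ≤ F + 1 → pos τ₀ = K + i →
      ∃ α < τ₀, pos α = i ∧ prq N m cl i α = true ∧ ∀ τ, α < τ → τ ≤ τ₀ → pos τ = K + i := by
    intro i hi τ₀ h1 h2
    obtain ⟨α, g1, g2, g3, g4⟩ := enter ht h0 hs hi h1 h2
    exact ⟨α, g1, g2, (prs_iff (by omega)).1 g3, g4⟩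
  have hN : N < K := by omega
  -- the last vertex
  have hend : pos (F + 1) = K + N := by
    obtain ⟨τ, h1, h2⟩ := hv (K + N) (by rw [hlen]; omega)
    obtain ⟨α, g1, g2, g3, g4⟩ := hent hN h1 h2
    rw [prq_last] at g3
    have : τ = F + 1 := by omega
    rw [← this]; exact h2
  have hlea : ∀ {i : ℕ}, i < K → i ≠ N → ∀ {τ₀ : ℕ}, τ₀ ≤ F + 1 → pos τ₀ = K + i →
      ∃ β, τ₀ ≤ β ∧ β ≤ F ∧ prq N m cl i β = true ∧ ∀ τ, τ₀ ≤ τ → τ ≤ β → pos τ = K + i := by
    intro i hi hiN τ₀ h1 h2
    obtain ⟨β, g1, g2, g3, g4⟩ := leave ht hs hi (by rw [hend]; omega) (F + 1 - τ₀)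
      (τ₀ := τ₀) (by omega) h2
    exact ⟨β, g1, by omega, (prs_iff (by omega)).1 g3, g4⟩
  -- times
  have hdd := dd_pos (N := N) (m := m)
  have t1 : ∀ j, tm N m (zz m * j) + dd N m ≤ tm N m (zz m * j + (m + 1)) :=
    fun j => tm_lt (by omega)
  have t2 : ∀ j, tm N m (zz m * j + (m + 1)) + dd N m ≤ tm N m (zz m * j + (2 * m + 2)) :=
    fun j => tm_lt (by omega)
  have t3 : ∀ j < N, tm N m (zz m * j + (2 * m + 2)) + dd N m ≤ F := by
    intro j hj
    rw [hF]
    exact tm_lt (idx_lt hj (by unfold zz; omega))
  refine ⟨fun j => decide (pos (tm N m (zz m * j) + 1) ≠ K + j), ?_⟩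
  -- false: in the leaf during the first half
  have claimA : ∀ j < N, pos (tm N m (zz m * j) + 1) = K + j →
      ∀ τ, tm N m (zz m * j) < τ → τ ≤ tm N m (zz m * j + (m + 1)) → pos τ = K + j := by
    intro j hj hpos τ h1 h2
    have a1 := t1 j
    have a2 := t2 j
    have a3 := t3 j hj
    obtain ⟨β, g1, g2, g3, g4⟩ := hlea (i := j) (by omega) (by omega)
      (τ₀ := tm N m (zz m * j) + 1) (by omega) hpos
    rw [prq_var hj] at g3
    exact g4 τ (by omega) (by omega)
  -- true: in the leaf during the second half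
  have claimB : ∀ j < N, pos (tm N m (zz m * j) + 1) ≠ K + j →
      ∀ τ, tm N m (zz m * j + (m + 1)) < τ → τ ≤ tm N m (zz m * j + (2 * m + 2)) →
        pos τ = K + j := by
    intro j hj hpos τ h1 h2
    have a1 := t1 j
    have a2 := t2 j
    have a3 := t3 j hj
    obtain ⟨τ₀, b1, b2⟩ := hv (K + j) (by rw [hlen]; omega)
    obtain ⟨α, g1, g2, g3, g4⟩ := hent (i := j) (by omega) b1 b2
    obtain ⟨β, g5, g6, g7, g8⟩ := hlea (i := j) (by omega) (by omega) b1 b2
    rw [prq_var hj] at g3 g7
    have hα : α ≠ tm N m (zz m * j) := by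
      rintro rfl
      exact hpos (g4 _ (by omega) (by omega))
    rcases le_total τ τ₀ with h | h
    · exact g4 τ (by omega) h
    · exact g8 τ h (by omega)
  intro c hc
  obtain ⟨τ₀, b1, b2⟩ := hv (K + (N + 1 + c)) (by rw [hlen]; omega)
  obtain ⟨α, g1, g2, g3, g4⟩ := hent (i := N + 1 + c) (by omega) b1 b2
  rw [prq_clause] at g3
  obtain ⟨j, hj, h | h⟩ := g3
  · refine ⟨j, hj, true, h.1, ?_⟩
    rw [decide_eq_true_eq]
    intro hpos
    have u1 : tm N m (zz m * j) + dd N m ≤ tm N m (zz m * j + (1 + c)) := tm_lt (by omega)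
    have u2 : tm N m (zz m * j + (1 + c)) + dd N m ≤ tm N m (zz m * j + (m + 1)) :=
      tm_lt (by omega)
    have := claimA j hj hpos α (by omega) (by omega)
    omega
  · refine ⟨j, hj, false, h.1, ?_⟩
    rw [decide_eq_false_iff_not, not_not]
    by_contra hpos
    have u1 : tm N m (zz m * j + (m + 1)) + dd N m ≤ tm N m (zz m * j + (m + 2 + c)) :=
      tm_lt (by omega)
    have u2 : tm N m (zz m * j + (m + 2 + c)) + dd N m ≤ tm N m (zz m * j + (2 * m + 2)) :=
      tm_lt (by omega)
    have := claimB j hj hpos α (by omega) (by omega)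
    omega

/-! ### From assignments to movements -/

section
variable (N m : ℕ) (x : ℕ → Bool)

/-- is the agent in a leaf at the time of the event number `r` of the variable `j`? -/
def inn (j r : ℕ) : Bool :=
  if x j = true then decide (m + 2 ≤ r) else decide (1 ≤ r ∧ r ≤ m + 1)

/-- the spine vertex -/
def spn (j r : ℕ) : ℕ :=
  if inn m x j r = true ∨ r = 0 ∨ r = m + 1 ∨ r = 2 * m + 2 then j
  else if r ≤ m then N + r else N + (r - m - 1)

/-- the position -/
def pst (j r : ℕ) : ℕ := if inn m x j r = true then kk N m + spn N m x j r else spn N m x j r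

end

variable {x : ℕ → Bool}

theorem spn_lt {j r : ℕ} (hj : j ≤ N) (hr : r < zz m) : spn N m x j r < kk N m := by
  unfold spn kk
  unfold zz at hr
  split_ifs with h1 h2 <;> omega

theorem inn_zero {j : ℕ} : inn m x j 0 = false := by
  unfold inn
  split_ifs <;> simp

theorem spn_zero {j : ℕ} : spn N m x j 0 = j := by
  unfold spn
  rw [if_pos (Or.inr (Or.inl rfl))]

theorem spn_inn {j r : ℕ} (h : inn m x j r = true) : spn N m x j r = j := by
  unfold spn
  rw [if_pos (Or.inl h)]

theorem ff_eq : ff N m = tm N m (zz m * N) := rfl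

/-- One step between consecutive events, from `(j, r)` to `(j', r')`. -/
theorem seg {j r j' r' : ℕ} (hj : j < N) (hr : r < zz m) (hj' : j' ≤ N) (hr' : r' < zz m)
    (hnext : (j' = j ∧ r' = r + 1) ∨ (j' = j + 1 ∧ r' = 0 ∧ r = 2 * m + 2)) :
    ∃ C, Wk (ff N m + 2) (tree N m cl) Al (pst N m x j r) (tm N m (zz m * j + r))
      (pst N m x j' r') (dd N m) C ∧
      (inn m x j r = false → inn m x j' r' = false →
        prq N m cl (spn N m x j r) (tm N m (zz m * j + r)) = true →
        prq N m cl (spn N m x j r) (tm N m (zz m * j + r) + 1) = true →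
        kk N m + spn N m x j r ∈ C) := by
  have hlt := idx_lt hj hr
  have hF : tm N m (zz m * j + r) + dd N m ≤ ff N m := tm_lt hlt
  have s1 := spn_lt (x := x) hj.le hr
  have s2 := spn_lt (x := x) hj' hr'
  have hdd : dd N m = 2 * kk N m + 3 := rfl
  set τ := tm N m (zz m * j + r) with hτ
  -- steps through the edge of a leaf
  have hin : ∀ {i a : ℕ}, i < kk N m → a ≤ ff N m → prq N m cl i a = true →
      Stp (ff N m + 2) (tree N m cl) a i (kk N m + i) := by
    intro i a hi ha hP
    exact (stp_iff (by omega)).2 (Or.inr (Or.inr (Or.inr ⟨i, hi, (prs_iff ha).2 hP,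
      Or.inl ⟨rfl, rfl⟩⟩)))
  have hout : ∀ {i a : ℕ}, i < kk N m → a ≤ ff N m → prq N m cl i a = true →
      Stp (ff N m + 2) (tree N m cl) a (kk N m + i) i := by
    intro i a hi ha hP
    exact (stp_iff (by omega)).2 (Or.inr (Or.inr (Or.inr ⟨i, hi, (prs_iff ha).2 hP,
      Or.inr ⟨rfl, rfl⟩⟩)))
  have hspine : ∀ {u v a d : ℕ}, u < kk N m → v < kk N m → kk N m ≤ d → a + d ≤ ff N m + 2 →
      ∃ C, Wk (ff N m + 2) (tree N m cl) Al u a v d C :=
    fun h1 h2 h3 h4 => wk_spine h1 h2 h3 h4
  cases hi1 : inn m x j r with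
  | true =>
    have e1 : pst N m x j r = kk N m + j := by
      unfold pst; rw [if_pos hi1, spn_inn hi1]
    cases hi2 : inn m x j' r' with
    | true =>
      have e2 : pst N m x j' r' = kk N m + j' := by
        unfold pst; rw [if_pos hi2, spn_inn hi2]
      have hjj : j' = j := by
        rcases hnext with h | h
        · exact h.1
        · rw [h.2.1, inn_zero] at hi2
          exact absurd hi2 (by simp)
      rw [e1, e2, hjj]
      exact ⟨_, wk_wait, fun h => absurd h (by simp)⟩
    | false =>
      have e2 : pst N m x j' r' = spn N m x j' r' := by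
        unfold pst; rw [if_neg (by rw [hi2]; simp)]
      have hP : prq N m cl j τ = true := by
        rw [prq_var hj, hτ]
        unfold inn at hi1 hi2
        unfold zz at hr
        by_cases hx : x j = true
        · rw [if_pos hx, decide_eq_true_eq] at hi1
          rcases hnext with ⟨h1, h2⟩ | ⟨h1, h2, h3⟩
          · rw [h1, if_pos hx, decide_eq_false_iff_not] at hi2
            omega
          · right; right; rw [h3]
        · rw [if_neg hx, decide_eq_true_eq] at hi1
          rcases hnext with ⟨h1, h2⟩ | ⟨h1, h2, h3⟩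
          · rw [h1, if_neg hx, decide_eq_false_iff_not] at hi2
            have : r = m + 1 := by omega
            right; left; rw [this]
          · omega
      obtain ⟨C, hC⟩ := hspine (u := j) (a := τ + 1) (d := dd N m - 1)
        (by unfold kk; omega) s2 (by omega) (by omega)
      rw [e1, e2]
      have h3 := wk_append (wk_step (hout (i := j) (by unfold kk; omega) (by omega) hP)) hC
      have e3 : 1 + (dd N m - 1) = dd N m := by omega
      rw [e3] at h3
      exact ⟨_, h3, fun h => absurd h (by simp)⟩
  | false =>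
    have e1 : pst N m x j r = spn N m x j r := by
      unfold pst; rw [if_neg (by rw [hi1]; simp)]
    cases hi2 : inn m x j' r' with
    | true =>
      have e2 : pst N m x j' r' = kk N m + j' := by
        unfold pst; rw [if_pos hi2, spn_inn hi2]
      have hjj : j' = j ∧ r' = r + 1 := by
        rcases hnext with h | h
        · exact h
        · rw [h.2.1, inn_zero] at hi2
          exact absurd hi2 (by simp)
      obtain ⟨hjj, hrr⟩ := hjj
      have hr2 : r = 0 ∨ r = m + 1 := by
        unfold inn at hi1 hi2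
        rw [hjj, hrr] at hi2
        by_cases hx : x j = true
        · rw [if_pos hx, decide_eq_false_iff_not] at hi1
          rw [if_pos hx, decide_eq_true_eq] at hi2
          omega
        · rw [if_neg hx, decide_eq_false_iff_not] at hi1
          rw [if_neg hx, decide_eq_true_eq] at hi2
          omega
      have hsp : spn N m x j r = j := by
        unfold spn
        rw [if_pos (by tauto)]
      have hP : prq N m cl j τ = true := by
        rw [prq_var hj, hτ]
        rcases hr2 with h | h
        · left; rw [h, add_zero]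
        · right; left; rw [h]
      rw [e1, e2, hsp, hjj]
      have h3 := wk_append (wk_step (hin (i := j) (by unfold kk; omega) (by omega) hP))
        (wk_wait (d := dd N m - 1))
      have e3 : 1 + (dd N m - 1) = dd N m := by omega
      rw [e3] at h3
      exact ⟨_, h3, fun _ h => absurd h (by simp)⟩
    | false =>
      have e2 : pst N m x j' r' = spn N m x j' r' := by
        unfold pst; rw [if_neg (by rw [hi2]; simp)]
      rw [e1, e2]
      by_cases hPP : prq N m cl (spn N m x j r) τ = true ∧
          prq N m cl (spn N m x j r) (τ + 1) = true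
      · obtain ⟨C, hC⟩ := hspine (u := spn N m x j r) (a := τ + (1 + 1)) (d := dd N m - 2)
          s1 s2 (by omega) (by omega)
        have h3 := wk_append (wk_step (hin s1 (by omega) hPP.1))
          (wk_step (hout s1 (by omega) hPP.2))
        have h4 := wk_append h3 hC
        have e3 : 1 + 1 + (dd N m - 2) = dd N m := by omega
        rw [e3] at h4
        refine ⟨_, h4, fun _ _ _ _ => ?_⟩
        simp
      · obtain ⟨C, hC⟩ := hspine (a := τ) (d := dd N m) s1 s2 (by omega) (by omega)
        exact ⟨C, hC, fun _ _ h1 h2 => absurd ⟨h1, h2⟩ hPP⟩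

/-- The walk up to the event `G`. -/
theorem walk_to (G : ℕ) (hG : G ≤ zz m * N) :
    ∃ C, Wk (ff N m + 2) (tree N m cl) Al 0 0 (pst N m x (G / zz m) (G % zz m)) (tm N m G) C ∧
      (∀ i < kk N m, i ∈ C) ∧
      ∀ j r, r < zz m → zz m * j + r < G → pst N m x j r ∈ C ∧
        ((inn m x j r = false → (∀ j' r', ((j' = j ∧ r' = r + 1) ∨
          (j' = j + 1 ∧ r' = 0 ∧ r = 2 * m + 2)) → inn m x j' r' = false) →
        prq N m cl (spn N m x j r) (tm N m (zz m * j + r)) = true →
        prq N m cl (spn N m x j r) (tm N m (zz m * j + r) + 1) = true →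
        kk N m + spn N m x j r ∈ C)) := by
  have hz : 0 < zz m := by unfold zz; omega
  induction G with
  | zero =>
    have e0 : pst N m x (0 / zz m) (0 % zz m) = 0 := by
      rw [Nat.zero_div, Nat.zero_mod]
      unfold pst
      rw [inn_zero, if_neg (by simp), spn_zero]
    rw [e0]
    have ht : tm N m 0 = dd N m := by unfold tm; ring
    have hF : tm N m 0 ≤ ff N m := by
      unfold ff tm
      exact Nat.mul_le_mul_left _ (by omega)
    have hk : 1 ≤ kk N m := by unfold kk; omega
    have hdd : dd N m = 2 * kk N m + 3 := rfl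
    obtain ⟨C, hC, hC'⟩ := wk_up (P := prs N m cl) (a := 0) (x := 0) (d := kk N m - 1)
      (K := kk N m) (p := ff N m + 2) (by omega) (by omega)
    obtain ⟨C₂, hC₂⟩ := wk_spine (P := prs N m cl) (K := kk N m) (p := ff N m + 2)
      (a := 0 + (kk N m - 1)) (x := 0 + (kk N m - 1)) (y := 0) (d := dd N m - (kk N m - 1))
      (by omega) (by omega) (by omega) (by omega)
    have h3 := wk_append hC hC₂
    have e3 : kk N m - 1 + (dd N m - (kk N m - 1)) = dd N m := by omega
    rw [e3, ← ht] at h3
    refine ⟨_, h3, ?_, ?_⟩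
    · intro i hi
      have := hC' i (by omega)
      rw [zero_add] at this
      exact Finset.mem_union_left _ this
    · intro j r _ h
      omega
  | succ G ih =>
    obtain ⟨C, h1, h2, h3⟩ := ih (by omega)
    have hdm := Nat.div_add_mod G (zz m)
    have hr : G % zz m < zz m := Nat.mod_lt _ hz
    have hj : G / zz m < N := by
      by_contra hc
      have : zz m * N ≤ zz m * (G / zz m) := Nat.mul_le_mul_left _ (not_lt.1 hc)
      omega
    set j := G / zz m with hjd
    set r := G % zz m with hrd
    have hnext : (((G + 1) / zz m = j ∧ (G + 1) % zz m = r + 1) ∨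
        ((G + 1) / zz m = j + 1 ∧ (G + 1) % zz m = 0 ∧ r = 2 * m + 2)) ∧
        (G + 1) % zz m < zz m ∧ (G + 1) / zz m ≤ N := by
      refine ⟨?_, Nat.mod_lt _ hz, ?_⟩
      · by_cases hlast : r = 2 * m + 2
        · right
          have e : G + 1 = zz m * (j + 1) := by
            rw [mul_add, mul_one, ← hdm, hlast]
            unfold zz; omega
          refine ⟨?_, ?_, hlast⟩
          · rw [e, Nat.mul_div_cancel_left _ hz]
          · rw [e, Nat.mul_mod_right]
        · left
          have hr1 : r + 1 < zz m := by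
            have : zz m = 2 * m + 3 := rfl
            omega
          have e : G + 1 = (r + 1) + zz m * j := by omega
          refine ⟨?_, ?_⟩
          · rw [e, Nat.add_mul_div_left _ _ hz, Nat.div_eq_of_lt hr1, zero_add]
          · rw [e, Nat.add_mul_mod_self_left, Nat.mod_eq_of_lt hr1]
      · exact (Nat.div_le_div_right hG).trans (by rw [Nat.mul_div_cancel_left _ hz])
    obtain ⟨hn1, hn2, hn3⟩ := hnext
    obtain ⟨C₂, g1, g2⟩ := seg (cl := cl) (x := x) hj hr hn3 hn2 hn1
    rw [hdm] at g1 g2
    have hstart := g1.mem_start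
    have h4 := h1.append g1 (by rw [zero_add])
    rw [tm_succ]
    refine ⟨_, h4, fun i hi => Finset.mem_union_left _ (h2 i hi), ?_⟩
    intro j₂ r₂ hr₂ hlt
    rcases Nat.lt_or_ge (zz m * j₂ + r₂) G with hlt' | hge
    · obtain ⟨a1, a2⟩ := h3 j₂ r₂ hr₂ hlt'
      exact ⟨Finset.mem_union_left _ a1, fun b1 b2 b3 b4 =>
        Finset.mem_union_left _ (a2 b1 b2 b3 b4)⟩
    · have e : zz m * j₂ + r₂ = G := by omega
      have ej : j₂ = j := by
        rw [hjd, ← e, add_comm, Nat.add_mul_div_left _ _ hz, Nat.div_eq_of_lt hr₂, zero_add]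
      have er : r₂ = r := by
        rw [hrd, ← e, add_comm, Nat.add_mul_mod_self_left, Nat.mod_eq_of_lt hr₂]
      rw [e, ej, er]
      refine ⟨Finset.mem_union_right _ hstart, fun b1 b2 b3 b4 => ?_⟩
      exact Finset.mem_union_right _ (g2 b1 (b2 _ _ hn1) b3 b4)

theorem fwd (h : SatB N m cl) : Covers (ff N m + 2) (tree N m cl) (ff N m + 1) := by
  obtain ⟨x, hx⟩ := h
  have hz : 0 < zz m := by unfold zz; omega
  obtain ⟨C, h1, h2, h3⟩ := walk_to (cl := cl) (x := x) (zz m * N) le_rfl
  rw [Nat.mul_div_cancel_left _ hz, Nat.mul_mod_right] at h1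
  have e0 : pst N m x N 0 = N := by
    unfold pst
    rw [inn_zero, if_neg (by simp), spn_zero]
  rw [e0] at h1
  have hst : Stp (ff N m + 2) (tree N m cl) (0 + tm N m (zz m * N)) N (kk N m + N) := by
    rw [zero_add]
    refine (stp_iff (by unfold ff; omega)).2 (Or.inr (Or.inr (Or.inr ⟨N, by unfold kk; omega,
      (prs_iff le_rfl).2 (prq_last.2 rfl), Or.inl ⟨rfl, rfl⟩⟩)))
  have h4 := h1.append (wk_step hst) rfl
  refine covers_of_wk h4 ?_
  intro v hv
  have hlen : (tree N m cl).length = (kk N m - 1) + kk N m := cat_length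
  have hv' : v ≤ (kk N m - 1) + kk N m := by
    rw [← hlen]; exact hv
  rcases Nat.lt_or_ge v (kk N m) with hk | hk
  · exact Finset.mem_union_left _ (h2 v hk)
  · obtain ⟨i, rfl⟩ := Nat.exists_eq_add_of_le hk
    have hkk : kk N m = N + m + 1 := rfl
    have hzz : zz m = 2 * m + 3 := rfl
    rcases Nat.lt_trichotomy i N with hi | rfl | hi
    · refine Finset.mem_union_left _ ?_
      by_cases hxi : x i = true
      · have hin : inn m x i (m + 2) = true := by
          unfold inn
          rw [if_pos hxi]; simp
        have := (h3 i (m + 2) (by omega) (idx_lt hi (by omega))).1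
        unfold pst at this
        rwa [if_pos hin, spn_inn hin] at this
      · have hin : inn m x i 1 = true := by
          unfold inn
          rw [if_neg hxi]; simp
        have := (h3 i 1 (by omega) (idx_lt hi (by omega))).1
        unfold pst at this
        rwa [if_pos hin, spn_inn hin] at this
    · refine Finset.mem_union_right _ ?_
      simp
    · obtain ⟨c, rfl⟩ : ∃ c, i = N + 1 + c := ⟨i - N - 1, by omega⟩
      refine Finset.mem_union_left _ ?_
      obtain ⟨j, hj, b, hcl, hxb⟩ := hx c (by omega)
      cases b with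
      | true =>
        have hspn : spn N m x j (1 + c) = N + 1 + c := by
          unfold spn
          rw [if_neg, if_pos (by omega)]
          · omega
          · rintro (h | h | h | h)
            · unfold inn at h
              rw [if_pos hxb, decide_eq_true_eq] at h
              omega
            · omega
            · omega
            · omega
        have := (h3 j (1 + c) (by omega) (idx_lt hj (by omega))).2 ?_ ?_ ?_ ?_
        · rwa [hspn] at this
        · unfold inn
          rw [if_pos hxb, decide_eq_false_iff_not]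
          omega
        · rintro j' r' (⟨rfl, rfl⟩ | ⟨rfl, rfl, h⟩)
          · unfold inn
            rw [if_pos hxb, decide_eq_false_iff_not]
            omega
          · exact inn_zero
        · rw [hspn, prq_clause]
          exact ⟨j, hj, Or.inl ⟨hcl, Or.inl rfl⟩⟩
        · rw [hspn, prq_clause]
          exact ⟨j, hj, Or.inl ⟨hcl, Or.inr rfl⟩⟩
      | false =>
        have hxf : ¬ x j = true := by rw [hxb]; simp
        have hspn : spn N m x j (m + 2 + c) = N + 1 + c := by
          unfold spn
          rw [if_neg, if_neg (by omega)]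
          · omega
          · rintro (h | h | h | h)
            · unfold inn at h
              rw [if_neg hxf, decide_eq_true_eq] at h
              omega
            · omega
            · omega
            · omega
        have := (h3 j (m + 2 + c) (by omega) (idx_lt hj (by omega))).2 ?_ ?_ ?_ ?_
        · rwa [hspn] at this
        · unfold inn
          rw [if_neg hxf, decide_eq_false_iff_not]
          omega
        · rintro j' r' (⟨rfl, rfl⟩ | ⟨rfl, rfl, h⟩)
          · unfold inn
            rw [if_neg hxf, decide_eq_false_iff_not]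
            omega
          · exact inn_zero
        · rw [hspn, prq_clause]
          exact ⟨j, hj, Or.inr ⟨hcl, Or.inl rfl⟩⟩
        · rw [hspn, prq_clause]
          exact ⟨j, hj, Or.inr ⟨hcl, Or.inr rfl⟩⟩

end Pool.Agent.L0h82.Pt
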